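import Mathlib

/-!
# MP_2b7cf0_al: if a power graph is a commuting graph, the first group has equal graphs

If `Pow(G₁) ≅ Com(G₂)` for finite groups `G₁`, `G₂`, then `Pow(G₁) = Com(G₁)`.
-/

set_option autoImplicit false

namespace Pool.Agent.Results.MP_2b7cf0_al.PowerCommuting

/-- The power graph of `G`: distinct `x`, `y` are adjacent when one is a power of the other. -/
def powerGraph (G : Type*) [Group G] : SimpleGraph G where
  Adj x y := x ≠ y ∧ ((∃ m : ℤ, x = y ^ m) ∨ ∃ m : ℤ, y = x ^ m)
  symm := ⟨fun _ _ ⟨h1, h2⟩ => ⟨h1.symm, h2.symm⟩⟩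
  loopless := ⟨fun _ h => h.1 rfl⟩

/-- The commuting graph of `G`, on the whole group. -/
def commutingGraph (G : Type*) [Group G] : SimpleGraph G where
  Adj x y := x ≠ y ∧ x * y = y * x
  symm := ⟨fun _ _ ⟨h1, h2⟩ => ⟨h1.symm, h2.symm⟩⟩
  loopless := ⟨fun _ h => h.1 rfl⟩

open Subgroup

section cmp

variable {G : Type*} [Group G]

/-- One of the two elements is a power of the other. -/
def Cmp (x y : G) : Prop := x ∈ zpowers y ∨ y ∈ zpowers x

theorem Cmp.symm {x y : G} (h : Cmp x y) : Cmp y x := Or.symm h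

theorem Cmp.refl (x : G) : Cmp x x := Or.inl (mem_zpowers x)

theorem Cmp.commute {x y : G} (h : Cmp x y) : Commute x y := by
  rcases h with h | h
  · obtain ⟨k, rfl⟩ := mem_zpowers_iff.1 h
    exact (Commute.refl y).zpow_left k
  · obtain ⟨k, rfl⟩ := mem_zpowers_iff.1 h
    exact (Commute.refl x).zpow_right k

theorem cmp_one (x : G) : Cmp 1 x := Or.inl (one_mem _)

theorem adj_power {x y : G} : (powerGraph G).Adj x y ↔ x ≠ y ∧ Cmp x y := by
  unfold Cmp
  rw [mem_zpowers_iff, mem_zpowers_iff]
  constructor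
  · rintro ⟨h1, h2 | h2⟩
    · obtain ⟨m, hm⟩ := h2
      exact ⟨h1, Or.inl ⟨m, hm.symm⟩⟩
    · obtain ⟨m, hm⟩ := h2
      exact ⟨h1, Or.inr ⟨m, hm.symm⟩⟩
  · rintro ⟨h1, h2 | h2⟩
    · obtain ⟨m, hm⟩ := h2
      exact ⟨h1, Or.inl ⟨m, hm.symm⟩⟩
    · obtain ⟨m, hm⟩ := h2
      exact ⟨h1, Or.inr ⟨m, hm.symm⟩⟩

/-- Generators of maximal cyclic subgroups. -/
def MaxCyc (x : G) : Prop := ∀ y : G, x ∈ zpowers y → y ∈ zpowers x

theorem exists_maxCyc [Finite G] (v : G) : ∃ x : G, MaxCyc x ∧ v ∈ zpowers x := by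
  obtain ⟨x, hx, hmax⟩ := Set.exists_max_image {x : G | v ∈ zpowers x} orderOf (Set.toFinite _)
    ⟨v, mem_zpowers v⟩
  refine ⟨x, fun y hy => ?_, hx⟩
  have h1 : zpowers x ≤ zpowers y := zpowers_le.2 hy
  have h2 : orderOf y ≤ orderOf x := hmax y (h1 hx)
  have h3 : zpowers x = zpowers y := by
    apply SetLike.coe_injective
    apply Set.eq_of_subset_of_ncard_le h1 _ (Set.toFinite _)
    have e1 : (zpowers y : Set G).ncard = orderOf y := Nat.card_zpowers y
    have e2 : (zpowers x : Set G).ncard = orderOf x := Nat.card_zpowers x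
    rw [e1, e2]
    exact h2
  rw [h3]
  exact mem_zpowers y

theorem exists_maxCyc_two [Finite G] {u v : G} (h : Cmp u v) :
    ∃ x : G, MaxCyc x ∧ u ∈ zpowers x ∧ v ∈ zpowers x := by
  rcases h with h | h
  · obtain ⟨x, hx, hv⟩ := exists_maxCyc v
    exact ⟨x, hx, (zpowers_le.2 hv) h, hv⟩
  · obtain ⟨x, hx, hu⟩ := exists_maxCyc u
    exact ⟨x, hx, hu, (zpowers_le.2 hu) h⟩

theorem cmp_maxCyc {x u : G} (hx : MaxCyc x) : Cmp x u ↔ u ∈ zpowers x :=
  ⟨fun h => h.elim (hx u) id, Or.inr⟩

end cmp

/-- The arithmetic behind the first step. -/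
theorem arith {m g p q : ℕ} (hp : p.Prime) (hq : q.Prime) (hlt : p < q) (hpm : p ∣ m)
    (hqm : q ∣ m) (hm : 0 < m) (hg : 0 < g) (h1 : m / p + g ∣ m) (h2 : m / q + g ∣ m) : False := by
  have hcop : p.Coprime q := (Nat.coprime_primes hp hq).2 hlt.ne
  obtain ⟨t, rfl⟩ := hcop.mul_dvd_of_dvd_of_dvd hpm hqm
  have e1 : p * q * t / p = q * t := by
    rw [mul_assoc, Nat.mul_div_cancel_left _ hp.pos]
  have e2 : p * q * t / q = p * t := by
    rw [mul_comm p q, mul_assoc, Nat.mul_div_cancel_left _ hq.pos]
  rw [e1] at h1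
  rw [e2] at h2
  obtain ⟨a, ha⟩ := h1
  obtain ⟨b, hb⟩ := h2
  have ht : 0 < t := Nat.pos_of_mul_pos_left hm
  have ha0 : 0 < a := by
    rcases Nat.eq_zero_or_pos a with h | h
    · rw [h, mul_zero] at ha; omega
    · exact h
  have hb0 : 0 < b := by
    rcases Nat.eq_zero_or_pos b with h | h
    · rw [h, mul_zero] at hb; omega
    · exact h
  have hap : a < p := by
    by_contra hcon
    have h3 : p ≤ a := Nat.le_of_not_lt hcon
    have h4 : (q * t + g) * p ≤ (q * t + g) * a := Nat.mul_le_mul_left _ h3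
    rw [← ha] at h4
    have h5 : 0 < g * p := Nat.mul_pos hg hp.pos
    nlinarith
  have hbq : b < q := by
    by_contra hcon
    have h3 : q ≤ b := Nat.le_of_not_lt hcon
    have h4 : (p * t + g) * q ≤ (p * t + g) * b := Nat.mul_le_mul_left _ h3
    rw [← hb] at h4
    have h5 : 0 < g * q := Nat.mul_pos hg hq.pos
    nlinarith
  obtain ⟨a', ha'⟩ : ∃ a', p = a + a' := ⟨p - a, by omega⟩
  obtain ⟨b', hb'⟩ : ∃ b', q = b + b' := ⟨q - b, by omega⟩
  have k1 : g * a = q * t * a' := by
    have : p * q * t = (q * t) * (a + a') := by rw [← ha']; ring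
    rw [this] at ha
    nlinarith
  have k2 : g * b = p * t * b' := by
    have : p * q * t = (p * t) * (b + b') := by rw [← hb']; ring
    rw [this] at hb
    nlinarith
  have k3 : t * (q * (a' * b)) = t * (p * (b' * a)) := by
    calc t * (q * (a' * b)) = (q * t * a') * b := by ring
      _ = (g * a) * b := by rw [k1]
      _ = (g * b) * a := by ring
      _ = (p * t * b') * a := by rw [k2]
      _ = t * (p * (b' * a)) := by ring
  have k4 : q * (a' * b) = p * (b' * a) := Nat.eq_of_mul_eq_mul_left ht k3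
  have k5 : q ∣ p * (b' * a) := ⟨_, k4.symm⟩
  rcases (Nat.Prime.dvd_mul hq).1 k5 with h | h
  · exact absurd ((Nat.prime_dvd_prime_iff_eq hq hp).1 h) (by omega)
  · rcases (Nat.Prime.dvd_mul hq).1 h with h | h
    · have := Nat.le_of_dvd (by omega) h
      omega
    · have := Nat.le_of_dvd ha0 h
      omega

section main

variable {G K : Type*} [Group G] [Group K] [Finite G] [Finite K] (ψ : G ≃ K)
  (hψ : ∀ x y : G, Cmp x y ↔ Commute (ψ x) (ψ y)) (hψ1 : ψ 1 = 1)

include hψ

theorem mem_centralizer_iff' {x y : G} : ψ y ∈ centralizer {ψ x} ↔ Cmp x y := by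
  rw [hψ, mem_centralizer_singleton_iff]
  exact ⟨fun h => h.symm, fun h => h.symm⟩

theorem card_cmp (x : G) : {u : G | Cmp x u}.ncard = Nat.card (centralizer {ψ x}) := by
  rw [← Set.ncard_image_of_injective _ ψ.injective]
  have : ψ '' {u : G | Cmp x u} = (centralizer {ψ x} : Set K) := by
    ext w
    obtain ⟨u, rfl⟩ := ψ.surjective w
    rw [ψ.injective.mem_set_image, SetLike.mem_coe, mem_centralizer_iff' ψ hψ]
    rfl
  rw [this]
  rfl

theorem card_cmp_two (x y : G) : {u : G | Cmp x u ∧ Cmp y u}.ncard =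
    Nat.card ((centralizer {ψ x} ⊓ centralizer {ψ y} : Subgroup K)) := by
  rw [← Set.ncard_image_of_injective _ ψ.injective]
  have : ψ '' {u : G | Cmp x u ∧ Cmp y u} =
      ((centralizer {ψ x} ⊓ centralizer {ψ y} : Subgroup K) : Set K) := by
    ext w
    obtain ⟨u, rfl⟩ := ψ.surjective w
    rw [ψ.injective.mem_set_image, SetLike.mem_coe, mem_inf, mem_centralizer_iff' ψ hψ,
      mem_centralizer_iff' ψ hψ]
    rfl
  rw [this]
  rfl

theorem card_centralizer_maxCyc {x : G} (hx : MaxCyc x) :
    Nat.card (centralizer {ψ x}) = orderOf x := by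
  rw [← card_cmp ψ hψ x]
  have : {u : G | Cmp x u} = (zpowers x : Set G) := by
    ext u
    exact cmp_maxCyc hx
  rw [this]
  exact Nat.card_zpowers x

/-- The orders of the generators of the maximal cyclic subgroups are prime powers. -/
theorem prime_pow_maxCyc {x : G} (hx : MaxCyc x) {p q : ℕ} (hp : p.Prime) (hq : q.Prime)
    (hpd : p ∣ orderOf x) (hqd : q ∣ orderOf x) : p = q := by
  have hpos : 0 < orderOf x := orderOf_pos x
  have main : ∀ p : ℕ, p.Prime → p ∣ orderOf x →
      orderOf x / p + {u : G | zpowers u = zpowers x}.ncard ∣ orderOf x := by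
    intro p hp hpd
    obtain ⟨m', hm'⟩ := hpd
    have hm'pos : 0 < m' := by
      rcases Nat.eq_zero_or_pos m' with h | h
      · rw [h, mul_zero] at hm'; omega
      · exact h
    have hdiv : orderOf x / p = m' := by rw [hm', Nat.mul_div_cancel_left _ hp.pos]
    have hy : orderOf (x ^ p) = m' := by
      rw [orderOf_pow_of_dvd hp.ne_zero (Dvd.intro _ hm'.symm), hdiv]
    have hyx : x ^ p ∈ zpowers x := npow_mem_zpowers x p
    have hset : {u : G | Cmp x u ∧ Cmp (x ^ p) u} =
        (zpowers (x ^ p) : Set G) ∪ {u : G | zpowers u = zpowers x} := by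
      ext u
      simp only [Set.mem_setOf_eq, Set.mem_union, SetLike.mem_coe]
      rw [cmp_maxCyc hx]
      constructor
      · rintro ⟨h1, h2⟩
        rcases h2 with h2 | h2
        · have d1 : m' ∣ orderOf u := by
            rw [← hy]; exact orderOf_dvd_of_mem_zpowers h2
          have d2 : orderOf u ∣ p * m' := by
            rw [← hm']; exact orderOf_dvd_of_mem_zpowers h1
          obtain ⟨d, hd⟩ := d1
          rw [hd, mul_comm p m'] at d2
          have d3 : d ∣ p := Nat.dvd_of_mul_dvd_mul_left hm'pos d2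
          rcases (Nat.dvd_prime hp).1 d3 with rfl | rfl
          · left
            have e : zpowers (x ^ p) = zpowers u := by
              apply SetLike.coe_injective
              apply Set.eq_of_subset_of_ncard_le (zpowers_le.2 h2) _ (Set.toFinite _)
              have e1 : (zpowers u : Set G).ncard = orderOf u := Nat.card_zpowers u
              have e2 : (zpowers (x ^ p) : Set G).ncard = orderOf (x ^ p) :=
                Nat.card_zpowers (x ^ p)
              rw [e1, e2, hy, hd, mul_one]
            rw [e]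
            exact mem_zpowers u
          · right
            apply SetLike.coe_injective
            apply Set.eq_of_subset_of_ncard_le (zpowers_le.2 h1) _ (Set.toFinite _)
            have e1 : (zpowers u : Set G).ncard = orderOf u := Nat.card_zpowers u
            have e2 : (zpowers x : Set G).ncard = orderOf x := Nat.card_zpowers x
            rw [e1, e2, hm', hd, mul_comm]
        · exact Or.inl h2
      · rintro (h | h)
        · exact ⟨(zpowers_le.2 hyx) h, Or.inr h⟩
        · have h1 : u ∈ zpowers x := by rw [← h]; exact mem_zpowers u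
          refine ⟨h1, Or.inl ?_⟩
          rw [h]
          exact hyx
    have hdisj : Disjoint (zpowers (x ^ p) : Set G) {u : G | zpowers u = zpowers x} := by
      rw [Set.disjoint_left]
      intro u hu1 hu2
      have d1 : orderOf u ∣ m' := by
        rw [← hy]; exact orderOf_dvd_of_mem_zpowers hu1
      have d2 : orderOf x ∣ orderOf u := by
        apply orderOf_dvd_of_mem_zpowers
        have h3 : zpowers u = zpowers x := hu2
        rw [h3]
        exact mem_zpowers x
      have d3 := Nat.le_of_dvd hm'pos (d2.trans d1)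
      rw [hm'] at d3
      have := hp.two_le
      nlinarith
    have hcard := card_cmp_two ψ hψ x (x ^ p)
    rw [hset, Set.ncard_union_eq hdisj (Set.toFinite _) (Set.toFinite _)] at hcard
    have e2 : (zpowers (x ^ p) : Set G).ncard = orderOf (x ^ p) := Nat.card_zpowers (x ^ p)
    rw [e2, hy] at hcard
    rw [hdiv, hcard, ← card_centralizer_maxCyc ψ hψ hx]
    exact card_dvd_of_le inf_le_left
  have hg : 0 < {u : G | zpowers u = zpowers x}.ncard := by
    rw [Set.ncard_pos (Set.toFinite _)]
    exact ⟨x, rfl⟩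
  rcases lt_trichotomy p q with h | h | h
  · exact (arith hp hq h hpd hqd hpos hg (main p hp hpd) (main q hq hqd)).elim
  · exact h
  · exact (arith hq hp h hqd hpd hpos hg (main q hq hqd) (main p hp hpd)).elim

/-- Two primes dividing the order of an element are equal. -/
theorem prime_unique (u : G) {p q : ℕ} (hp : p.Prime) (hq : q.Prime)
    (hpd : p ∣ orderOf u) (hqd : q ∣ orderOf u) : p = q := by
  obtain ⟨x, hx, hu⟩ := exists_maxCyc u
  have hd : orderOf u ∣ orderOf x := orderOf_dvd_of_mem_zpowers hu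
  exact prime_pow_maxCyc ψ hψ hx hp hq (hpd.trans hd) (hqd.trans hd)

/-- If `p` divides the order of `u`, the order is a power of `p`. -/
theorem order_pow (u : G) {p : ℕ} (hp : p.Prime) (hpd : p ∣ orderOf u) :
    ∃ k, orderOf u = p ^ k := by
  have h1 : orderOf u ≠ 0 := (orderOf_pos u).ne'
  refine ⟨(orderOf u).primeFactorsList.length, ?_⟩
  apply Nat.eq_prime_pow_of_unique_prime_dvd h1
  intro d hd hdd
  exact prime_unique ψ hψ u hd hp hdd hpd

include hψ1

/-- For every prime `p` dividing `|K|` there is a Sylow `p`-subgroup of `G` all of whose elements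
are comparable with one nonidentity element. -/
theorem exists_sylow {p : ℕ} (hp : p.Prime) (hpK : p ∣ Nat.card K) :
    ∃ (T : Sylow p G) (z : G), z ≠ 1 ∧ ∀ u ∈ T, Cmp z u := by
  have : Fact p.Prime := ⟨hp⟩
  obtain ⟨P⟩ : Nonempty (Sylow p K) := inferInstance
  have hPnt : Nontrivial P := by
    rw [← Finite.one_lt_card_iff_nontrivial, P.card_eq_multiplicity]
    apply Nat.one_lt_pow _ hp.one_lt
    rw [← Nat.pos_iff_ne_zero]
    exact hp.factorization_pos_of_dvd Nat.card_pos.ne' hpK
  have hZ := P.isPGroup'.center_nontrivial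
  obtain ⟨z₀, hz₀⟩ := exists_ne (1 : center P)
  obtain ⟨z', hz'⟩ : ∃ z' : K, z' = ((z₀ : P) : K) := ⟨_, rfl⟩
  have hz'P : z' ∈ (P : Subgroup K) := by rw [hz']; exact (z₀ : P).2
  have hz'1 : z' ≠ 1 := by
    rw [hz']
    intro h
    exact hz₀ (Subtype.ext (Subtype.ext h))
  have hz'c : ∀ w ∈ (P : Subgroup K), Commute w z' := by
    intro w hw
    have := (mem_center_iff.1 z₀.2) ⟨w, hw⟩
    rw [hz']
    exact congrArg Subtype.val this
  obtain ⟨j, hj⟩ : ∃ j, orderOf z' = p ^ j := by
    obtain ⟨j, hj⟩ := (IsPGroup.iff_orderOf.1 P.isPGroup') ⟨z', hz'P⟩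
    exact ⟨j, by rw [← hj, orderOf_mk]⟩
  have hpz' : p ∣ orderOf z' := by
    rw [hj]
    apply dvd_pow_self
    rintro rfl
    rw [pow_zero, orderOf_eq_one_iff] at hj
    exact hz'1 hj
  obtain ⟨z, hz⟩ := ψ.surjective z'
  have hz1 : z ≠ 1 := by
    rintro rfl
    rw [hψ1] at hz
    exact hz'1 hz.symm
  -- all elements comparable with `z` and their images are `p`-elements
  have hcmp : ∀ u : G, Cmp z u → (∃ k, orderOf (ψ u) ∣ p ^ k) ∧ p ∣ orderOf z := by
    intro u hu
    obtain ⟨x, hx, hzx, hux⟩ := exists_maxCyc_two hu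
    have hcard := card_centralizer_maxCyc ψ hψ hx
    have h1 : ψ z ∈ centralizer {ψ x} :=
      (mem_centralizer_iff' ψ hψ).2 ((cmp_maxCyc hx).2 hzx)
    have h2 : ψ u ∈ centralizer {ψ x} :=
      (mem_centralizer_iff' ψ hψ).2 ((cmp_maxCyc hx).2 hux)
    have h3 : p ∣ orderOf x := by
      rw [← hcard]
      refine hpz'.trans ?_
      rw [← hz]
      exact Subgroup.orderOf_dvd_natCard _ h1
    obtain ⟨k, hk⟩ := order_pow ψ hψ x hp h3
    refine ⟨⟨k, ?_⟩, ?_⟩
    · rw [← hk, ← hcard]
      exact Subgroup.orderOf_dvd_natCard _ h2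
    · have h4 : orderOf z ∣ p ^ k := by rw [← hk]; exact orderOf_dvd_of_mem_zpowers hzx
      obtain ⟨i, _, hi⟩ := (Nat.dvd_prime_pow hp).1 h4
      rw [hi]
      apply dvd_pow_self
      rintro rfl
      rw [pow_zero, orderOf_eq_one_iff] at hi
      exact hz1 hi
  have hpz : p ∣ orderOf z := (hcmp z (Cmp.refl z)).2
  -- the centralizer of `z'` is `P`
  have hCP : IsPGroup p (centralizer {z'}) := by
    rw [IsPGroup.iff_orderOf]
    rintro ⟨w, hw⟩
    obtain ⟨u, rfl⟩ := ψ.surjective w
    rw [← hz] at hw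
    obtain ⟨k, hk⟩ := (hcmp u ((mem_centralizer_iff' ψ hψ).1 hw)).1
    obtain ⟨i, _, hi⟩ := (Nat.dvd_prime_pow hp).1 hk
    exact ⟨i, by rw [orderOf_mk, hi]⟩
  have hPC : (P : Subgroup K) ≤ centralizer {z'} := by
    intro w hw
    rw [mem_centralizer_singleton_iff]
    exact hz'c w hw
  have hPeq : centralizer {z'} = (P : Subgroup K) := P.is_maximal' hCP hPC
  have hcardGK : Nat.card G = Nat.card K := Nat.card_congr ψ
  have hcard1 : {u : G | Cmp z u}.ncard = p ^ (Nat.card G).factorization p := by
    rw [card_cmp ψ hψ z, hz, hPeq, hcardGK]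
    exact P.card_eq_multiplicity
  -- the centralizer of `z`
  have hCz : IsPGroup p (centralizer {z}) := by
    rw [IsPGroup.iff_orderOf]
    rintro ⟨w, hw⟩
    rw [orderOf_mk]
    by_cases hw1 : w = 1
    · exact ⟨0, by rw [hw1, orderOf_one, pow_zero]⟩
    · have hpw : p ∣ orderOf w := by
        by_contra hpw
        obtain ⟨i, hi⟩ := order_pow ψ hψ z hp hpz
        have hcop : (orderOf w).Coprime (orderOf z) := by
          rw [hi]
          exact Nat.Coprime.pow_right i ((Nat.Prime.coprime_iff_not_dvd hp).2 hpw).symm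
        have hcomm : Commute w z := by
          rw [mem_centralizer_singleton_iff] at hw
          exact hw
        have hmul := hcomm.orderOf_mul_eq_mul_orderOf_of_coprime hcop
        obtain ⟨q, hq, hqd⟩ := Nat.exists_prime_and_dvd
          (fun h => hw1 (orderOf_eq_one_iff.1 h) : orderOf w ≠ 1)
        have := prime_unique ψ hψ (w * z) hp hq (by rw [hmul]; exact hpz.mul_left _)
          (by rw [hmul]; exact hqd.mul_right _)
        rw [this] at hpw
        exact hpw hqd
      exact order_pow ψ hψ w hp hpw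
  obtain ⟨b, hb⟩ := IsPGroup.iff_card.1 hCz
  have hble : b ≤ (Nat.card G).factorization p := by
    have h5 : p ^ b ∣ Nat.card G := by rw [← hb]; exact card_subgroup_dvd_card _
    exact (Nat.Prime.pow_dvd_iff_le_factorization hp Nat.card_pos.ne').1 h5
  have hsub : {u : G | Cmp z u} ⊆ (centralizer {z} : Set G) := by
    intro u hu
    rw [SetLike.mem_coe, mem_centralizer_singleton_iff]
    exact hu.commute.symm
  have hle : (centralizer {z} : Set G).ncard ≤ {u : G | Cmp z u}.ncard := by
    rw [hcard1]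
    have : (centralizer {z} : Set G).ncard = Nat.card (centralizer {z}) := rfl
    rw [this, hb]
    exact Nat.pow_le_pow_right hp.pos hble
  have heq : {u : G | Cmp z u} = (centralizer {z} : Set G) :=
    Set.eq_of_subset_of_ncard_le hsub hle (Set.toFinite _)
  have hcardC : Nat.card (centralizer {z}) = p ^ (Nat.card G).factorization p := by
    rw [← hcard1, heq]
    rfl
  refine ⟨Sylow.ofCard (centralizer {z}) hcardC, z, hz1, ?_⟩
  intro u hu
  have h6 : u ∈ (centralizer {z} : Set G) := hu
  rw [← heq] at h6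
  exact h6

end main

section final

variable {G : Type*} [Group G] [Finite G]

/-- In a group in which all elements of order `p` lie in the powers of every nonidentity element
of `T`, commuting elements of `T` are comparable. -/
theorem cmp_of_commute {p : ℕ} (hp : p.Prime) {T : Subgroup G} (hT : IsPGroup p T) {z : G}
    (hz : z ≠ 1) (hcmp : ∀ u ∈ T, Cmp z u) {x y : G} (hx : x ∈ T) (hy : y ∈ T)
    (hxy : Commute x y) : Cmp x y := by
  have : Fact p.Prime := ⟨hp⟩
  have hpow : ∀ u ∈ T, ∃ k, orderOf u = p ^ k := by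
    intro u hu
    obtain ⟨k, hk⟩ := (IsPGroup.iff_orderOf.1 hT) ⟨u, hu⟩
    exact ⟨k, by rw [← hk, orderOf_mk]⟩
  -- elements of order `p` lie in the powers of each other
  -- step A: an element `w` of `T` with `w ^ p = 1` is a power of `z`
  have hA : ∀ w ∈ T, w ^ p = 1 → w ∈ zpowers z := by
    intro w hw hwp
    rcases hcmp w hw with h | h
    · have h1 : orderOf z ∣ orderOf w := orderOf_dvd_of_mem_zpowers h
      have h2 : orderOf w ∣ p := orderOf_dvd_of_pow_eq_one hwp
      have h3 : orderOf z = p := by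
        rcases (Nat.dvd_prime hp).1 (h1.trans h2) with h4 | h4
        · exact absurd (orderOf_eq_one_iff.1 h4) hz
        · exact h4
      have h5 : orderOf w = p := by
        rcases (Nat.dvd_prime hp).1 h2 with h4 | h4
        · rw [h4] at h1
          exact absurd (orderOf_eq_one_iff.1 (Nat.dvd_one.1 h1)) hz
        · exact h4
      have h6 : zpowers z = zpowers w := by
        apply SetLike.coe_injective
        apply Set.eq_of_subset_of_ncard_le (zpowers_le.2 h) _ (Set.toFinite _)
        have e1 : (zpowers w : Set G).ncard = orderOf w := Nat.card_zpowers w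
        have e2 : (zpowers z : Set G).ncard = orderOf z := Nat.card_zpowers z
        rw [e1, e2, h3, h5]
      rw [h6]
      exact mem_zpowers w
    · exact h
  -- step B: an element `w` of `T` with `w ^ p = 1` is a power of every nonidentity `y ∈ T`
  have hB : ∀ w ∈ T, w ^ p = 1 → ∀ y ∈ T, y ≠ 1 → w ∈ zpowers y := by
    intro w hw hwp y hy hy1
    by_cases hw1 : w = 1
    · rw [hw1]; exact one_mem _
    -- `y` has a power of order `p`
    obtain ⟨k, hk⟩ := hpow y hy
    have hk0 : k ≠ 0 := by
      rintro rfl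
      rw [pow_zero, orderOf_eq_one_iff] at hk
      exact hy1 hk
    obtain ⟨k', rfl⟩ := Nat.exists_eq_succ_of_ne_zero hk0
    obtain ⟨v, hv⟩ : ∃ v, v = y ^ (p ^ k') := ⟨_, rfl⟩
    have hvy : v ∈ zpowers y := by rw [hv]; exact npow_mem_zpowers y _
    have hvo : orderOf v = p := by
      rw [hv, orderOf_pow_of_dvd (pow_ne_zero _ hp.ne_zero) (by rw [hk, pow_succ]; exact dvd_mul_right _ _),
        hk, pow_succ, Nat.mul_div_cancel_left _ (pow_pos hp.pos _)]
    have hvT : v ∈ T := by rw [hv]; exact T.pow_mem hy _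
    have hvz := hA v hvT (by rw [← hvo]; exact pow_orderOf_eq_one v)
    have hwz := hA w hw hwp
    have hwo : orderOf w = p := by
      rcases (Nat.dvd_prime hp).1 (orderOf_dvd_of_pow_eq_one hwp) with h4 | h4
      · exact absurd (orderOf_eq_one_iff.1 h4) hw1
      · exact h4
    -- both generate the subgroup of order `p` of the cyclic group of `z`
    have h11 : w ∈ zpowers v := by
      have hcyc : IsCyclic (zpowers z) := inferInstance
      have hA' : {t : G | t ∈ zpowers z ∧ t ^ p = 1}.ncard ≤ p := by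
        classical
        have := Fintype.ofFinite (zpowers z)
        have h8 := IsCyclic.card_pow_eq_one_le (α := zpowers z) (n := p) hp.pos
        have h9 : {t : G | t ∈ zpowers z ∧ t ^ p = 1} =
            Subtype.val '' ((Finset.univ.filter (fun a : zpowers z => a ^ p = 1) :
              Finset (zpowers z)) : Set (zpowers z)) := by
          ext t
          simp only [Set.mem_setOf_eq, Set.mem_image, Finset.coe_filter, Finset.mem_univ,
            true_and]
          constructor
          · rintro ⟨h1, h2⟩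
            exact ⟨⟨t, h1⟩, Subtype.ext h2, rfl⟩
          · rintro ⟨t', h1, rfl⟩
            exact ⟨t'.2, congrArg Subtype.val h1⟩
        rw [h9, Set.ncard_image_of_injective _ Subtype.val_injective, Set.ncard_coe_finset]
        exact h8
      have h10 : (zpowers v : Set G) = {t : G | t ∈ zpowers z ∧ t ^ p = 1} := by
        apply Set.eq_of_subset_of_ncard_le _ _ (Set.toFinite _)
        · intro t ht
          refine ⟨(zpowers_le.2 hvz) ht, ?_⟩
          have : orderOf t ∣ p := by rw [← hvo]; exact orderOf_dvd_of_mem_zpowers ht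
          exact orderOf_dvd_iff_pow_eq_one.1 this
        · have e1 : (zpowers v : Set G).ncard = orderOf v := Nat.card_zpowers v
          rw [e1, hvo]
          exact hA'
      have h12 : w ∈ {t : G | t ∈ zpowers z ∧ t ^ p = 1} := ⟨hwz, hwp⟩
      rw [← h10] at h12
      exact h12
    exact (zpowers_le.2 hvy) h11
  -- step C: if the order of `x` is at most that of `y`, then `x` is a power of `y`
  have hC : ∀ (i : ℕ) (x y : G), x ∈ T → y ∈ T → Commute x y → orderOf x = p ^ i →
      orderOf x ≤ orderOf y → x ∈ zpowers y := by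
    intro i
    induction i with
    | zero =>
      intro x y _ _ _ hxo _
      rw [pow_zero, orderOf_eq_one_iff] at hxo
      rw [hxo]
      exact one_mem _
    | succ i ih =>
      intro x y hx hy hxy hxo hle
      have hxpo : orderOf (x ^ p) = p ^ i := by
        rw [orderOf_pow_of_dvd hp.ne_zero (by rw [hxo]; exact dvd_pow_self p (Nat.succ_ne_zero i)),
          hxo, pow_succ, Nat.mul_div_cancel _ hp.pos]
      have hlt : p ^ i < p ^ (i + 1) := Nat.pow_lt_pow_right hp.one_lt (Nat.lt_succ_self i)
      have hxp := ih (x ^ p) y (T.pow_mem hx p) hy (hxy.pow_left p) hxpo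
        (by rw [hxpo]; rw [hxo] at hle; omega)
      obtain ⟨k, hk⟩ := mem_zpowers_iff.1 hxp
      have hy1 : y ≠ 1 := by
        rintro rfl
        rw [orderOf_one, hxo] at hle
        have h0 : 1 < p ^ (i + 1) := Nat.one_lt_pow (Nat.succ_ne_zero i) hp.one_lt
        omega
      by_cases hpk : (p : ℤ) ∣ k
      · obtain ⟨k', rfl⟩ := hpk
        have h1 : (x * (y ^ k')⁻¹) ^ p = 1 := by
          have hc : Commute x (y ^ k')⁻¹ := (hxy.zpow_right k').inv_right
          rw [hc.mul_pow, inv_pow, ← zpow_natCast (y ^ k') p, ← zpow_mul, mul_comm k' (p : ℤ), hk,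
            mul_inv_cancel]
        have h2 := hB _ (T.mul_mem hx (T.inv_mem (T.zpow_mem hy k'))) h1 y hy hy1
        have h3 := (zpowers y).mul_mem h2 (zpow_mem_zpowers y k')
        rwa [inv_mul_cancel_right] at h3
      · exfalso
        obtain ⟨l, hl⟩ := hpow y hy
        have hcop : IsCoprime k (orderOf y : ℤ) := by
          rw [hl]
          push_cast
          apply IsCoprime.pow_right
          have h4 : IsCoprime (p : ℤ) k :=
            (Prime.coprime_iff_not_dvd (Nat.prime_iff_prime_int.1 hp)).2 hpk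
          exact h4.symm
        have h5 : orderOf (y ^ k) = orderOf y := by
          obtain ⟨a, b, hab⟩ := hcop
          apply Nat.dvd_antisymm
          · exact orderOf_dvd_of_mem_zpowers (zpow_mem_zpowers y k)
          · apply orderOf_dvd_of_mem_zpowers
            have h6 : (y ^ k) ^ a = y := by
              rw [← zpow_mul, mul_comm k a]
              have h7 : y ^ (a * k + b * (orderOf y : ℤ)) = y := by rw [hab, zpow_one]
              rw [zpow_add, mul_comm b, zpow_mul y (orderOf y : ℤ), zpow_natCast,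
                pow_orderOf_eq_one, one_zpow, mul_one] at h7
              exact h7
            rw [mem_zpowers_iff]
            exact ⟨a, h6⟩
        rw [hk, hxpo] at h5
        rw [hxo] at hle
        omega
  obtain ⟨i, hi⟩ := hpow x hx
  obtain ⟨j, hj⟩ := hpow y hy
  rcases le_total (orderOf x) (orderOf y) with h | h
  · exact Or.inl (hC i x y hx hy hxy hi h)
  · exact Or.inr (hC j y x hy hx hxy.symm hj h)

theorem cmp_conj {g x y : G} (h : Cmp (g * x * g⁻¹) (g * y * g⁻¹)) : Cmp x y := by
  have key : ∀ x y : G, g * x * g⁻¹ ∈ zpowers (g * y * g⁻¹) → x ∈ zpowers y := by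
    intro x y h
    obtain ⟨k, hk⟩ := mem_zpowers_iff.1 h
    rw [conj_zpow] at hk
    have : y ^ k = x := by
      have := congrArg (fun t => g⁻¹ * t * g) hk
      simpa [mul_assoc] using this
    rw [← this]
    exact zpow_mem_zpowers y k
  exact h.imp (key x y) (key y x)

end final

/-- If the power graph of the finite group `G₁` is isomorphic to the commuting graph of the finite
group `G₂`, then the power graph and the commuting graph of `G₁` coincide. -/
theorem result (G₁ G₂ : Type*) [Group G₁] [Group G₂] [Finite G₁] [Finite G₂]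
    (φ : powerGraph G₁ ≃g commutingGraph G₂) : powerGraph G₁ = commutingGraph G₁ := by
  have hcmp0 : ∀ x y : G₁, Cmp x y ↔ Commute (φ x) (φ y) := by
    intro x y
    by_cases hxy : x = y
    · subst hxy
      exact ⟨fun _ => Commute.refl _, fun _ => Cmp.refl _⟩
    · have h1 : (powerGraph G₁).Adj x y ↔ Cmp x y := by
        rw [adj_power]
        exact ⟨fun h => h.2, fun h => ⟨hxy, h⟩⟩
      have h2 : (commutingGraph G₂).Adj (φ x) (φ y) ↔ Commute (φ x) (φ y) :=
        ⟨fun h => h.2, fun h => ⟨fun e => hxy (φ.injective e), h⟩⟩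
      rw [← h1, ← h2, φ.map_adj_iff]
  -- normalise so that the identity is mapped to the identity
  have hcentral : ∀ w : G₂, Commute (φ 1) w := by
    intro w
    obtain ⟨y, rfl⟩ := φ.surjective w
    exact (hcmp0 1 y).1 (cmp_one y)
  let ψ : G₁ ≃ G₂ := φ.toEquiv.trans (Equiv.mulLeft (φ 1)⁻¹)
  have hψdef : ∀ x, ψ x = (φ 1)⁻¹ * φ x := fun _ => rfl
  have hψ1 : ψ 1 = 1 := by rw [hψdef, inv_mul_cancel]
  have hψ : ∀ x y : G₁, Cmp x y ↔ Commute (ψ x) (ψ y) := by
    intro x y
    rw [hcmp0, hψdef, hψdef]
    have c1 : ∀ w, Commute (φ 1)⁻¹ w := fun w => (hcentral w).inv_left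
    constructor
    · intro h
      exact ((Commute.refl _).mul_right (c1 _)).mul_left ((c1 _).symm.mul_right h)
    · intro h
      have h1 : Commute (φ 1 * ((φ 1)⁻¹ * φ x)) (φ 1 * ((φ 1)⁻¹ * φ y)) :=
        ((Commute.refl _).mul_right (hcentral _)).mul_left ((hcentral _).symm.mul_right h)
      simpa using h1
  have hcardGK : Nat.card G₁ = Nat.card G₂ := Nat.card_congr ψ
  -- commuting elements are comparable
  have main : ∀ x y : G₁, Commute x y → Cmp x y := by
    intro x y hxy
    by_cases hx1 : x = 1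
    · rw [hx1]; exact cmp_one y
    by_cases hy1 : y = 1
    · rw [hy1]; exact (cmp_one x).symm
    obtain ⟨p, hp, hpx⟩ := Nat.exists_prime_and_dvd
      (fun h => hx1 (orderOf_eq_one_iff.1 h) : orderOf x ≠ 1)
    have : Fact p.Prime := ⟨hp⟩
    have hpy : p ∣ orderOf y := by
      by_contra hpy
      obtain ⟨i, hi⟩ := order_pow ψ hψ x hp hpx
      have hcop : (orderOf x).Coprime (orderOf y) := by
        rw [hi]
        exact Nat.Coprime.pow_left i ((Nat.Prime.coprime_iff_not_dvd hp).2 hpy)
      have hmul := hxy.orderOf_mul_eq_mul_orderOf_of_coprime hcop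
      obtain ⟨q, hq, hqd⟩ := Nat.exists_prime_and_dvd
        (fun h => hy1 (orderOf_eq_one_iff.1 h) : orderOf y ≠ 1)
      have := prime_unique ψ hψ (x * y) hp hq (by rw [hmul]; exact hpx.mul_right _)
        (by rw [hmul]; exact hqd.mul_left _)
      rw [this] at hpy
      exact hpy hqd
    obtain ⟨i, hi⟩ := order_pow ψ hψ x hp hpx
    obtain ⟨j, hj⟩ := order_pow ψ hψ y hp hpy
    obtain ⟨T, z, hz1, hT⟩ := exists_sylow ψ hψ hψ1 hp (by
      rw [← hcardGK]; exact hpx.trans (orderOf_dvd_natCard x))
    -- the subgroup generated by `x` and `y` is a `p`-group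
    have hAp : IsPGroup p (zpowers x ⊔ zpowers y : Subgroup G₁) := by
      have h1 : IsPGroup p (zpowers x) := IsPGroup.of_card (n := i) (by rw [Nat.card_zpowers, hi])
      have h2 : IsPGroup p (zpowers y) := IsPGroup.of_card (n := j) (by rw [Nat.card_zpowers, hj])
      refine IsPGroup.to_sup_of_normal_right' h1 h2 ?_
      rw [zpowers_le, mem_normalizer_iff]
      intro w
      have key : ∀ w ∈ zpowers y, x * w * x⁻¹ = w := by
        intro w hw
        obtain ⟨k, rfl⟩ := mem_zpowers_iff.1 hw
        rw [(hxy.zpow_right k).eq, mul_inv_cancel_right]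
      constructor
      · intro hw
        have := key w hw
        rw [this]
        exact hw
      · intro hw
        have h3 := key _ hw
        have h4 : x * w * x⁻¹ = w := by
          have := congrArg (fun t => x⁻¹ * t * x) h3
          simpa [mul_assoc] using this
        rw [h4] at hw
        exact hw
    obtain ⟨Q, hQ⟩ := hAp.exists_le_sylow
    obtain ⟨g, hg⟩ := MulAction.exists_smul_eq G₁ Q T
    have hconj : ∀ u ∈ (Q : Subgroup G₁), g * u * g⁻¹ ∈ (T : Subgroup G₁) := by
      intro u hu
      rw [← hg, Sylow.coe_subgroup_smul]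
      exact ⟨u, hu, rfl⟩
    have hxQ : x ∈ (Q : Subgroup G₁) := hQ (mem_sup_left (mem_zpowers x))
    have hyQ : y ∈ (Q : Subgroup G₁) := hQ (mem_sup_right (mem_zpowers y))
    apply cmp_conj (g := g)
    refine cmp_of_commute hp T.isPGroup' hz1 hT (hconj x hxQ) (hconj y hyQ) ?_
    exact hxy.map (MulAut.conj g)
  ext x y
  rw [adj_power]
  constructor
  · rintro ⟨h1, h2⟩
    exact ⟨h1, h2.commute⟩
  · rintro ⟨h1, h2⟩
    exact ⟨h1, main x y h2⟩

end Pool.Agent.Results.MP_2b7cf0_al.PowerCommuting
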